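import Pool.Agent.W172.MK.Stm

/-! # `P_PSI`: a good map exists (union bound) -/

set_option autoImplicit false

namespace Pool.Agent.W293.MK

open Pool.Agent.W172.MK Finset

section

variable {n s : ℕ}

/-- change the value at one point -/
def addv (b : V n) (v : Fin s → ZMod 2) (ψ : V n → (Fin (s + 1) → ZMod 2)) :
    V n → (Fin (s + 1) → ZMod 2) :=
  Function.update ψ b (ψ b + Fin.snoc (α := fun _ => ZMod 2) v 0)

theorem addv_self (b : V n) (v : Fin s → ZMod 2) (ψ : V n → (Fin (s + 1) → ZMod 2)) (i : Fin s) :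
    addv b v ψ b i.castSucc = ψ b i.castSucc + v i := by
  unfold addv
  rw [Function.update_self, Pi.add_apply, Fin.snoc_castSucc]

theorem addv_ne (b c : V n) (h : c ≠ b) (v : Fin s → ZMod 2)
    (ψ : V n → (Fin (s + 1) → ZMod 2)) : addv b v ψ c = ψ c := by
  unfold addv
  rw [Function.update_of_ne h]

open Classical in
theorem cnt (B : Finset (V n → (Fin (s + 1) → ZMod 2))) (b : V n)
    (rec' : (V n → (Fin (s + 1) → ZMod 2)) → (Fin s → ZMod 2))
    (h : ∀ ψ ∈ B, ∀ v, rec' (addv b v ψ) = v) :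
    B.card * 2 ^ s ≤ Fintype.card (V n → (Fin (s + 1) → ZMod 2)) := by
  have h1 : (B ×ˢ (Finset.univ : Finset (Fin s → ZMod 2))).card ≤
      (Finset.univ : Finset (V n → (Fin (s + 1) → ZMod 2))).card := by
    apply Finset.card_le_card_of_injOn (fun p => addv b p.2 p.1)
    · intro p _
      exact Finset.mem_univ _
    · rintro ⟨ψ, v⟩ hp ⟨ψ', v'⟩ hp' he
      have hψ : ψ ∈ B := (Finset.mem_product.mp (Finset.mem_coe.mp hp)).1
      have hψ' : ψ' ∈ B := (Finset.mem_product.mp (Finset.mem_coe.mp hp')).1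
      simp only at he
      have hv : v = v' := by
        rw [← h ψ hψ v, ← h ψ' hψ' v', he]
      subst hv
      have : ψ = ψ' := by
        funext c
        by_cases hc : c = b
        · subst hc
          have h2 := congrFun he c
          unfold addv at h2
          rw [Function.update_self, Function.update_self] at h2
          exact add_right_cancel h2
        · have h2 := congrFun he c
          rwa [addv_ne b c hc, addv_ne b c hc] at h2
      rw [this]
  rw [Finset.card_product, Finset.card_univ, Finset.card_univ, Fintype.card_fun, ZMod.card,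
    Fintype.card_fin] at h1
  exact h1

open Classical in
/-- the union bound -/
theorem union (hW : P_WALSH)
    (hnum : (2 : ℝ) ^ (s + 1) * 2 ^ n * (2 * Real.exp (-(qq n / 128))) +
      2 ^ n * 2 ^ n / 2 ^ s + 2 ^ n / 2 ^ s < 1) :
    ∃ ψ : V n → (Fin (s + 1) → ZMod 2),
      (∀ b, ∃ i : Fin s, ψ b i.castSucc ≠ 0) ∧
      (∀ b b', b ≠ b' → ∃ i : Fin s, ψ b i.castSucc ≠ ψ b' i.castSucc) ∧
      ∀ w : Fin (s + 1) → ZMod 2, w ≠ 0 → ∀ a : V n,
        |hat (fun b => sg (∑ i, w i * ψ b i)) a| ≤ 1 / 8 := by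
  by_contra hcon
  let Ψ := V n → (Fin (s + 1) → ZMod 2)
  let B1 : (Fin (s + 1) → ZMod 2) × V n → Finset Ψ := fun p =>
    Finset.univ.filter fun ψ => p.1 ≠ 0 ∧ 1 / 8 < |hat (fun b => sg (∑ i, p.1 i * ψ b i)) p.2|
  let B2 : V n × V n → Finset Ψ := fun p =>
    Finset.univ.filter fun ψ => p.1 ≠ p.2 ∧ ∀ i : Fin s, ψ p.1 i.castSucc = ψ p.2 i.castSucc
  let B3 : V n → Finset Ψ := fun b =>
    Finset.univ.filter fun ψ => ∀ i : Fin s, ψ b i.castSucc = 0
  have hcov : (Finset.univ : Finset Ψ) ⊆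
      (Finset.univ.biUnion B1 ∪ Finset.univ.biUnion B2) ∪ Finset.univ.biUnion B3 := by
    intro ψ _
    by_contra hψ
    rw [Finset.mem_union, Finset.mem_union, not_or, not_or] at hψ
    obtain ⟨⟨h1, h2⟩, h3⟩ := hψ
    apply hcon
    refine ⟨ψ, ?_, ?_, ?_⟩
    · intro b
      by_contra hb
      push Not at hb
      exact h3 (Finset.mem_biUnion.mpr ⟨b, Finset.mem_univ _,
        Finset.mem_filter.mpr ⟨Finset.mem_univ _, hb⟩⟩)
    · intro b b' hbb
      by_contra hb
      push Not at hb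
      exact h2 (Finset.mem_biUnion.mpr ⟨(b, b'), Finset.mem_univ _,
        Finset.mem_filter.mpr ⟨Finset.mem_univ _, hbb, hb⟩⟩)
    · intro w hw a
      by_contra hb
      push Not at hb
      exact h1 (Finset.mem_biUnion.mpr ⟨(w, a), Finset.mem_univ _,
        Finset.mem_filter.mpr ⟨Finset.mem_univ _, hw, hb⟩⟩)
  have hcard : Fintype.card Ψ ≤
      ((∑ p : (Fin (s + 1) → ZMod 2) × V n, (B1 p).card) + ∑ p : V n × V n, (B2 p).card) +
        ∑ b : V n, (B3 b).card := by
    calc Fintype.card Ψ = (Finset.univ : Finset Ψ).card := Finset.card_univ.symm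
      _ ≤ _ := Finset.card_le_card hcov
      _ ≤ _ := Finset.card_union_le _ _
      _ ≤ _ := Nat.add_le_add ((Finset.card_union_le _ _).trans
        (Nat.add_le_add Finset.card_biUnion_le Finset.card_biUnion_le)) Finset.card_biUnion_le
  have hA : (0 : ℝ) < (Fintype.card Ψ : ℝ) := by
    exact_mod_cast Fintype.card_pos
  have hcardV : (Fintype.card (V n) : ℝ) = 2 ^ n := by
    rw [Fintype.card_fun, ZMod.card, Fintype.card_fin]
    push_cast
    ring
  have hcardW : (Fintype.card (Fin (s + 1) → ZMod 2) : ℝ) = 2 ^ (s + 1) := by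
    rw [Fintype.card_fun, ZMod.card, Fintype.card_fin]
    push_cast
    ring
  have h2s : (0 : ℝ) < 2 ^ s := by positivity
  have b1 : ∀ p, ((B1 p).card : ℝ) ≤
      2 * Real.exp (-(qq n / 128)) * (Fintype.card Ψ : ℝ) := by
    rintro ⟨w, a⟩
    by_cases hw : w = 0
    · have : B1 (w, a) = ∅ := by
        apply Finset.filter_eq_empty_iff.mpr
        rintro ψ _ ⟨h, _⟩
        exact h hw
      rw [this, Finset.card_empty, Nat.cast_zero]
      positivity
    · have h1 := hW n (s + 1) w hw a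
      rw [Nat.card_eq_fintype_card (α := V n → (Fin (s + 1) → ZMod 2))] at h1
      refine le_trans ?_ h1
      have h2 : (B1 (w, a)).card = Nat.card {ψ : V n → (Fin (s + 1) → ZMod 2) |
          1 / 8 < |hat (fun b => sg (∑ i, w i * ψ b i)) a|} := by
        have h3 : {ψ : V n → (Fin (s + 1) → ZMod 2) |
            1 / 8 < |hat (fun b => sg (∑ i, w i * ψ b i)) a|} = ↑(B1 (w, a)) := by
          ext ψ
          simp only [B1, Finset.coe_filter, Finset.mem_univ, true_and, Set.mem_ofPred_eq]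
          exact ⟨fun h => ⟨hw, h⟩, fun h => h.2⟩
        rw [Nat.card_coe_set_eq, h3, Set.ncard_coe_finset]
      rw [h2]
  have b2 : ∀ p, ((B2 p).card : ℝ) ≤ (Fintype.card Ψ : ℝ) / 2 ^ s := by
    rintro ⟨b, b'⟩
    rw [le_div_iff₀ h2s]
    have h1 := cnt (B2 (b, b')) b (fun ψ i => ψ b i.castSucc - ψ b' i.castSucc) (by
      intro ψ hψ v
      obtain ⟨_, hne, he⟩ := Finset.mem_filter.mp hψ
      funext i
      simp only at hne he ⊢
      rw [addv_self, addv_ne b b' (Ne.symm hne), he i]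
      ring)
    exact_mod_cast h1
  have b3 : ∀ b, ((B3 b).card : ℝ) ≤ (Fintype.card Ψ : ℝ) / 2 ^ s := by
    intro b
    rw [le_div_iff₀ h2s]
    have h1 := cnt (B3 b) b (fun ψ i => ψ b i.castSucc) (by
      intro ψ hψ v
      obtain ⟨_, he⟩ := Finset.mem_filter.mp hψ
      funext i
      rw [addv_self, he i, zero_add])
    exact_mod_cast h1
  have hcardR : (Fintype.card Ψ : ℝ) ≤
      ((∑ p : (Fin (s + 1) → ZMod 2) × V n, ((B1 p).card : ℝ)) +
        ∑ p : V n × V n, ((B2 p).card : ℝ)) + ∑ b : V n, ((B3 b).card : ℝ) := by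
    exact_mod_cast hcard
  have s1 : (∑ p : (Fin (s + 1) → ZMod 2) × V n, ((B1 p).card : ℝ)) ≤
      2 ^ (s + 1) * 2 ^ n * (2 * Real.exp (-(qq n / 128)) * (Fintype.card Ψ : ℝ)) := by
    calc _ ≤ ∑ _p : (Fin (s + 1) → ZMod 2) × V n,
          (2 * Real.exp (-(qq n / 128)) * (Fintype.card Ψ : ℝ)) :=
        Finset.sum_le_sum fun p _ => b1 p
      _ = _ := by
        rw [Finset.sum_const, Finset.card_univ, Fintype.card_prod, nsmul_eq_mul, Nat.cast_mul,
          hcardV, hcardW]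
  have s2 : (∑ p : V n × V n, ((B2 p).card : ℝ)) ≤
      2 ^ n * 2 ^ n * ((Fintype.card Ψ : ℝ) / 2 ^ s) := by
    calc _ ≤ ∑ _p : V n × V n, ((Fintype.card Ψ : ℝ) / 2 ^ s) :=
        Finset.sum_le_sum fun p _ => b2 p
      _ = _ := by
        rw [Finset.sum_const, Finset.card_univ, Fintype.card_prod, nsmul_eq_mul, Nat.cast_mul,
          hcardV]
  have s3 : (∑ b : V n, ((B3 b).card : ℝ)) ≤ 2 ^ n * ((Fintype.card Ψ : ℝ) / 2 ^ s) := by
    calc _ ≤ ∑ _p : V n, ((Fintype.card Ψ : ℝ) / 2 ^ s) :=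
        Finset.sum_le_sum fun p _ => b3 p
      _ = _ := by
        rw [Finset.sum_const, Finset.card_univ, nsmul_eq_mul, hcardV]
  have hfin : (Fintype.card Ψ : ℝ) ≤ ((2 : ℝ) ^ (s + 1) * 2 ^ n *
      (2 * Real.exp (-(qq n / 128))) + 2 ^ n * 2 ^ n / 2 ^ s + 2 ^ n / 2 ^ s) *
        (Fintype.card Ψ : ℝ) := by
    refine hcardR.trans ((add_le_add (add_le_add s1 s2) s3).trans (le_of_eq ?_))
    ring
  have : ((2 : ℝ) ^ (s + 1) * 2 ^ n *
      (2 * Real.exp (-(qq n / 128))) + 2 ^ n * 2 ^ n / 2 ^ s + 2 ^ n / 2 ^ s) *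
        (Fintype.card Ψ : ℝ) < 1 * (Fintype.card Ψ : ℝ) := mul_lt_mul_of_pos_right hnum hA
  linarith

end

theorem psi : P_WALSH → P_PSI := by
  intro hW
  refine ⟨16, 40, by norm_num, ?_⟩
  apply union hW
  have h1 : Real.exp (-(qq 16 / 128)) ≤ 1 / 2 ^ 100 := by
    have h2 : ((100 : ℕ) : ℝ) * 1 ≤ qq 16 / 128 := by
      unfold qq
      norm_num
    rw [Real.exp_neg, one_div]
    apply inv_anti₀ (by positivity)
    calc (2 : ℝ) ^ 100 ≤ Real.exp 1 ^ 100 := by
          apply pow_le_pow_left₀ (by norm_num)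
          have := Real.add_one_le_exp (1 : ℝ)
          linarith
      _ = Real.exp (((100 : ℕ) : ℝ) * 1) := (Real.exp_nat_mul 1 100).symm
      _ ≤ Real.exp (qq 16 / 128) := Real.exp_le_exp.mpr h2
  have h3 : (2 : ℝ) ^ (40 + 1) * 2 ^ 16 * (2 * Real.exp (-(qq 16 / 128))) ≤
      2 ^ (40 + 1) * 2 ^ 16 * (2 * (1 / 2 ^ 100)) := by gcongr
  have h4 : (2 : ℝ) ^ (40 + 1) * 2 ^ 16 * (2 * (1 / 2 ^ 100)) + 2 ^ 16 * 2 ^ 16 / 2 ^ 40 +
      2 ^ 16 / 2 ^ 40 < 1 := by norm_num
  linarith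

end Pool.Agent.W293.MK
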